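import Pool.Agent.Helper12.RQ.Goals

/-! Packet MOLLSC (MP_a2585e_an): smoothing and lower semicontinuity of the energy. -/

set_option autoImplicit false

open MeasureTheory Set Filter Topology Metric ContinuousLinearMap

open scoped ENNReal NNReal ContDiff Convolution

namespace Pool.Agent.Helper69.RQ

open Pool.Agent.Helper12.RQ

variable {n : ℕ}

/-- smoothing -/
noncomputable def sm (φ : ContDiffBump (0 : E n)) (u : E n → ℝ) : E n → ℝ :=
  (φ.normed volume ⋆[lsmul ℝ ℝ, volume] u)

theorem sm_apply (φ : ContDiffBump (0 : E n)) (u : E n → ℝ) (x : E n) :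
    sm φ u x = ∫ t, φ.normed volume t • u (x - t) := rfl

theorem sm_hasFDerivAt (φ : ContDiffBump (0 : E n)) {u : E n → ℝ} {C : ℝ≥0}
    (hu : LipschitzWith C u) (x : E n) :
    HasFDerivAt (sm φ u) (∫ t, φ.normed volume t • fderiv ℝ u (x - t)) x := by
  have hcont : ∀ x : E n, Continuous (fun t => φ.normed volume t • u (x - t)) := fun x =>
    φ.continuous_normed.smul (hu.continuous.comp (continuous_const.sub continuous_id))
  have hφint : Integrable (φ.normed (volume : Measure (E n))) := φ.integrable_normed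
  have hdiff : ∀ᵐ t : E n, DifferentiableAt ℝ u (x - t) :=
    (quasiMeasurePreserving_sub_left_of_right_invariant volume x).ae hu.ae_differentiableAt
  refine (hasFDerivAt_integral_of_dominated_loc_of_lip (s := univ) (μ := volume)
    (F := fun (x : E n) (t : E n) => φ.normed volume t • u (x - t))
    (F' := fun t => φ.normed volume t • fderiv ℝ u (x - t))
    (bound := fun t => (C : ℝ) * φ.normed volume t) univ_mem
    (Eventually.of_forall fun y => (hcont y).aestronglyMeasurable) ?_ ?_ ?_ ?_ ?_).2
  · exact (hcont x).integrable_of_hasCompactSupport φ.hasCompactSupport_normed.smul_right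
  · refine AEStronglyMeasurable.smul φ.continuous_normed.aestronglyMeasurable ?_
    exact ((measurable_fderiv ℝ u).comp (measurable_const.sub measurable_id)).aestronglyMeasurable
  · refine Eventually.of_forall fun t => ?_
    refine LipschitzOnWith.of_dist_le_mul fun y _ z _ => ?_
    rw [Real.coe_nnabs, Real.dist_eq]
    have h1 : |φ.normed volume t • u (y - t) - φ.normed volume t • u (z - t)|
        = φ.normed volume t * |u (y - t) - u (z - t)| := by
      rw [smul_eq_mul, smul_eq_mul, ← mul_sub, abs_mul, abs_of_nonneg (φ.nonneg_normed t)]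
    rw [h1]
    have h2 : |u (y - t) - u (z - t)| ≤ C * dist y z := by
      have h3 := hu.dist_le_mul (y - t) (z - t)
      rw [Real.dist_eq, dist_sub_right] at h3
      exact h3
    have h4 : |(C : ℝ) * φ.normed volume t| = (C : ℝ) * φ.normed volume t :=
      abs_of_nonneg (mul_nonneg C.2 (φ.nonneg_normed t))
    rw [h4]
    calc φ.normed volume t * |u (y - t) - u (z - t)| ≤ φ.normed volume t * (C * dist y z) :=
          mul_le_mul_of_nonneg_left h2 (φ.nonneg_normed t)
      _ = C * φ.normed volume t * dist y z := by ring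
  · exact hφint.const_mul _
  · filter_upwards [hdiff] with t ht
    have h1 : HasFDerivAt (fun y : E n => u (y - t)) (fderiv ℝ u (x - t)) x := by
      have h2 := ht.hasFDerivAt
      have h3 : HasFDerivAt (fun y : E n => y - t) (ContinuousLinearMap.id ℝ (E n)) x :=
        (hasFDerivAt_id x).sub_const t
      have h4 := h2.comp x h3
      rw [ContinuousLinearMap.comp_id] at h4
      exact h4
    exact h1.const_smul (φ.normed volume t)

theorem jensen {w : E n → ℝ≥0∞} (hw : Measurable w) (hw1 : ∫⁻ t, w t = 1) {g : E n → ℝ≥0∞}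
    (hg : Measurable g) {p : ℝ} (hp : 1 ≤ p) :
    (∫⁻ t, w t * g t) ^ p ≤ ∫⁻ t, w t * g t ^ p := by
  rcases eq_or_lt_of_le hp with rfl | hp1
  · simp
  · have hpq := Real.HolderConjugate.conjExponent hp1
    set q := p.conjExponent with hq
    have hp0 : 0 < p := hpq.pos
    have hq0 : 0 < q := hpq.symm.pos
    have h := ENNReal.lintegral_mul_le_Lp_mul_Lq (volume : Measure (E n)) hpq
      (f := fun t => w t ^ (1 / p) * g t) (g := fun t => w t ^ (1 / q))
      ((hw.pow_const _).mul hg).aemeasurable (hw.pow_const _).aemeasurable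
    have e1 : ∀ t, (w t ^ (1 / p) * g t) * w t ^ (1 / q) = w t * g t := by
      intro t
      have h1 : w t ^ (1 / p) * w t ^ (1 / q) = w t := by
        rw [← ENNReal.rpow_add_of_nonneg _ _ (by positivity) (by positivity)]
        have : 1 / p + 1 / q = 1 := by
          have := hpq.inv_add_inv_eq_one
          simpa [one_div] using this
        rw [this, ENNReal.rpow_one]
      calc (w t ^ (1 / p) * g t) * w t ^ (1 / q) = (w t ^ (1 / p) * w t ^ (1 / q)) * g t := by ring
        _ = w t * g t := by rw [h1]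
    have e2 : ∀ t, (w t ^ (1 / p) * g t) ^ p = w t * g t ^ p := by
      intro t
      rw [ENNReal.mul_rpow_of_nonneg _ _ hp0.le, ← ENNReal.rpow_mul, one_div_mul_cancel hp0.ne',
        ENNReal.rpow_one]
    have e3 : ∀ t, (w t ^ (1 / q)) ^ q = w t := by
      intro t
      rw [← ENNReal.rpow_mul, one_div_mul_cancel hq0.ne', ENNReal.rpow_one]
    simp only [Pi.mul_apply, e1, e2, e3, hw1, ENNReal.one_rpow, mul_one] at h
    calc (∫⁻ t, w t * g t) ^ p ≤ ((∫⁻ t, w t * g t ^ p) ^ (1 / p)) ^ p :=
          ENNReal.rpow_le_rpow h hp0.le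
      _ = ∫⁻ t, w t * g t ^ p := by
          rw [← ENNReal.rpow_mul, one_div_mul_cancel hp0.ne', ENNReal.rpow_one]

theorem lint_normed (φ : ContDiffBump (0 : E n)) :
    ∫⁻ t, ENNReal.ofReal (φ.normed (volume : Measure (E n)) t) = 1 := by
  rw [← ofReal_integral_eq_lintegral_ofReal φ.integrable_normed
    (Eventually.of_forall fun t => φ.nonneg_normed t), φ.integral_normed]
  simp

theorem enorm_fderiv_sm_le (φ : ContDiffBump (0 : E n)) {u : E n → ℝ} {C : ℝ≥0}
    (hu : LipschitzWith C u) (x : E n) :
    ‖fderiv ℝ (sm φ u) x‖ₑ ≤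
      ∫⁻ t, ENNReal.ofReal (φ.normed volume t) * ‖fderiv ℝ u (x - t)‖ₑ := by
  rw [(sm_hasFDerivAt φ hu x).fderiv]
  refine (enorm_integral_le_lintegral_enorm _).trans (le_of_eq ?_)
  refine lintegral_congr fun t => ?_
  rw [enorm_smul, Real.enorm_eq_ofReal (φ.nonneg_normed t)]

theorem en_sm_le (φ : ContDiffBump (0 : E n)) {u : E n → ℝ} {C : ℝ≥0} (hu : LipschitzWith C u)
    {p : ℝ} (hp : 1 ≤ p) : en p (sm φ u) ≤ en p u := by
  have hp0 : 0 ≤ p := by linarith
  have hmeas : Measurable (fun y : E n => ‖fderiv ℝ u y‖ₑ) := (measurable_fderiv ℝ u).enorm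
  have hφm : Measurable (fun t => ENNReal.ofReal (φ.normed (volume : Measure (E n)) t)) :=
    φ.continuous_normed.measurable.ennreal_ofReal
  have h1 : en p (sm φ u) ≤ ∫⁻ x : E n, ∫⁻ t,
      ENNReal.ofReal (φ.normed volume t) * ‖fderiv ℝ u (x - t)‖ₑ ^ p := by
    unfold en
    refine lintegral_mono fun x => ?_
    refine (ENNReal.rpow_le_rpow (enorm_fderiv_sm_le φ hu x) hp0).trans ?_
    exact jensen hφm (lint_normed φ) (hmeas.comp (measurable_const.sub measurable_id)) hp
  refine h1.trans ?_
  rw [lintegral_lintegral_swap]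
  · have h2 : ∀ t : E n, ∫⁻ x : E n, ENNReal.ofReal (φ.normed volume t) *
        ‖fderiv ℝ u (x - t)‖ₑ ^ p = ENNReal.ofReal (φ.normed volume t) * en p u := by
      intro t
      rw [lintegral_const_mul]
      · congr 1
        unfold en
        exact lintegral_sub_right_eq_self (fun x : E n => ‖fderiv ℝ u x‖ₑ ^ p) t
      · exact (hmeas.comp (measurable_id.sub_const t)).pow_const p
    simp only [h2]
    rw [lintegral_mul_const _ hφm, lint_normed, one_mul]
  · refine Measurable.aemeasurable ?_
    refine Measurable.mul (hφm.comp measurable_snd) ?_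
    exact (hmeas.comp (measurable_fst.sub measurable_snd)).pow_const p

theorem mol : StmtMOL := by
  intro n p hp u C hu hc ε hε
  have hδ : 0 < ε / ((C : ℝ) + 1) := by positivity
  let φ : ContDiffBump (0 : E n) := ⟨ε / ((C : ℝ) + 1) / 2, ε / ((C : ℝ) + 1), by positivity,
    by linarith⟩
  refine ⟨sm φ u, ?_, ?_, ?_, en_sm_le φ hu hp⟩
  · exact φ.hasCompactSupport_normed.contDiff_convolution_left _ φ.contDiff_normed
      hu.continuous.locallyIntegrable
  · exact φ.hasCompactSupport_normed.convolution _ hc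
  · intro x
    have h := φ.dist_normed_convolution_le (μ := volume) (g := u) (x₀ := x) (ε := ε)
      hu.continuous.aestronglyMeasurable (by
        intro y hy
        refine (hu.dist_le_mul y x).trans ?_
        have h1 : dist y x < ε / ((C : ℝ) + 1) := hy
        have h2 : (C : ℝ) * dist y x ≤ C * (ε / ((C : ℝ) + 1)) :=
          mul_le_mul_of_nonneg_left h1.le C.2
        refine h2.trans ?_
        rw [mul_div_assoc', div_le_iff₀ (by positivity)]
        nlinarith [C.2])
    rw [Real.dist_eq] at h
    exact h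

theorem fderiv_sm_eq (φ : ContDiffBump (0 : E n)) {u : E n → ℝ} (hu : Continuous u) (x : E n) :
    fderiv ℝ (sm φ u) x = ∫ t, u (x - t) • fderiv ℝ (φ.normed volume) t := by
  have h := φ.hasCompactSupport_normed.hasFDerivAt_convolution_left (μ := volume)
    (lsmul ℝ ℝ : ℝ →L[ℝ] ℝ →L[ℝ] ℝ) (φ.contDiff_normed (μ := volume) (n := 1))
    hu.locallyIntegrable x
  refine h.fderiv.trans ?_
  refine integral_congr_ae (Eventually.of_forall fun t => ?_)
  show (lsmul ℝ ℝ : ℝ →L[ℝ] ℝ →L[ℝ] ℝ).precompL (E n) (fderiv ℝ (φ.normed volume) t) (u (x - t))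
    = u (x - t) • fderiv ℝ (φ.normed volume) t
  ext z
  rw [ContinuousLinearMap.precompL_apply]
  simp [mul_comm]

theorem tendsto_fderiv_sm (φ : ContDiffBump (0 : E n)) (U : ℕ → E n → ℝ) (u : E n → ℝ) (C : ℝ≥0)
    (hU : ∀ k, LipschitzWith C (U k)) (hu : LipschitzWith C u)
    (hlim : ∀ x, Tendsto (fun k => U k x) atTop (𝓝 (u x))) (x : E n) :
    Tendsto (fun k => fderiv ℝ (sm φ (U k)) x) atTop (𝓝 (fderiv ℝ (sm φ u) x)) := by
  rw [fderiv_sm_eq φ hu.continuous x]
  have h0 : (fun k => fderiv ℝ (sm φ (U k)) x) = fun k =>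
      ∫ t, U k (x - t) • fderiv ℝ (φ.normed volume) t := by
    funext k
    exact fderiv_sm_eq φ (hU k).continuous x
  rw [h0]
  obtain ⟨B, hB⟩ := (hlim x).norm.bddAbove_range
  have hB' : ∀ k, ‖U k x‖ ≤ B := fun k => hB ⟨k, rfl⟩
  have hcs : HasCompactSupport (fun t : E n => fderiv ℝ (φ.normed volume) t) :=
    φ.hasCompactSupport_normed.fderiv ℝ
  have hcf : Continuous (fun t : E n => fderiv ℝ (φ.normed volume) t) :=
    (φ.contDiff_normed (μ := volume) (n := 1)).continuous_fderiv (by simp)
  refine tendsto_integral_of_dominated_convergence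
    (fun t => ‖fderiv ℝ (φ.normed volume) t‖ * (B + C * ‖t‖)) ?_ ?_ ?_ ?_
  · intro k
    exact (((hU k).continuous.comp (continuous_const.sub continuous_id)).smul
      hcf).aestronglyMeasurable
  · refine Continuous.integrable_of_hasCompactSupport ?_ ?_
    · exact hcf.norm.mul (continuous_const.add (continuous_const.mul continuous_norm))
    · exact hcs.norm.mul_right
  · intro k
    refine Eventually.of_forall fun t => ?_
    have h1 : ‖U k (x - t)‖ ≤ B + C * ‖t‖ := by
      have h2 := (hU k).dist_le_mul (x - t) x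
      rw [dist_eq_norm, dist_eq_norm, sub_sub_cancel_left, norm_neg] at h2
      have h3 : ‖U k (x - t)‖ ≤ ‖U k (x - t) - U k x‖ + ‖U k x‖ := by
        have := norm_add_le (U k (x - t) - U k x) (U k x)
        simpa using this
      linarith [hB' k]
    rw [norm_smul, mul_comm]
    exact mul_le_mul_of_nonneg_left h1 (norm_nonneg _)
  · refine Eventually.of_forall fun t => ?_
    exact (hlim (x - t)).smul_const _

theorem lsc_aux (V : ℕ → E n → ℝ) (v : E n → ℝ) {p : ℝ}
    (h : ∀ᵐ x : E n, Tendsto (fun k => fderiv ℝ (V k) x) atTop (𝓝 (fderiv ℝ v x))) :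
    en p v ≤ liminf (fun k => en p (V k)) atTop := by
  unfold en
  have h1 : ∫⁻ x : E n, ‖fderiv ℝ v x‖ₑ ^ p
      = ∫⁻ x : E n, liminf (fun k => ‖fderiv ℝ (V k) x‖ₑ ^ p) atTop := by
    refine lintegral_congr_ae ?_
    filter_upwards [h] with x hx
    have h2 : Tendsto (fun k => ‖fderiv ℝ (V k) x‖ₑ ^ p) atTop (𝓝 (‖fderiv ℝ v x‖ₑ ^ p)) :=
      ((ENNReal.continuous_rpow_const (y := p)).tendsto _).comp hx.enorm
    exact h2.liminf_eq.symm
  rw [h1]
  exact lintegral_liminf_le fun k => ((measurable_fderiv ℝ (V k)).enorm).pow_const p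

theorem lsc : StmtLSC := by
  intro n p hp U u C hU hlim
  have hu : LipschitzWith C u := by
    refine LipschitzWith.of_dist_le_mul fun x y => ?_
    exact le_of_tendsto ((hlim x).dist (hlim y))
      (Eventually.of_forall fun k => (hU k).dist_le_mul x y)
  have step1 : ∀ φ : ContDiffBump (0 : E n),
      en p (sm φ u) ≤ liminf (fun k => en p (U k)) atTop := by
    intro φ
    refine (lsc_aux (fun k => sm φ (U k)) (sm φ u)
      (Eventually.of_forall fun x => tendsto_fderiv_sm φ U u C hU hu hlim x)).trans ?_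
    exact liminf_le_liminf (Eventually.of_forall fun k => en_sm_le φ (hU k) hp)
  let φ : ℕ → ContDiffBump (0 : E n) := fun j => ⟨1 / ((j : ℝ) + 1) / 2, 1 / ((j : ℝ) + 1),
    by positivity, by
      have : (0 : ℝ) < 1 / ((j : ℝ) + 1) := by positivity
      linarith⟩
  have hloc : LocallyIntegrable (fun x : E n => fderiv ℝ u x) volume := by
    refine (locallyIntegrable_const (C : ℝ)).mono
      (measurable_fderiv ℝ u).aestronglyMeasurable (Eventually.of_forall fun x => ?_)
    have h1 := norm_fderiv_le_of_lipschitz ℝ hu (x₀ := x)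
    exact h1.trans (le_abs_self _)
  have hae := ContDiffBump.ae_convolution_tendsto_right_of_locallyIntegrable (μ := volume)
    (φ := φ) (l := atTop) (K := 2) (g := fun x : E n => fderiv ℝ u x)
    tendsto_one_div_add_atTop_nhds_zero_nat
    (Eventually.of_forall fun j => by
      show 1 / ((j : ℝ) + 1) ≤ 2 * (1 / ((j : ℝ) + 1) / 2)
      linarith) hloc
  have step2 : en p u ≤ liminf (fun j => en p (sm (φ j) u)) atTop := by
    refine lsc_aux (fun j => sm (φ j) u) u ?_
    filter_upwards [hae] with x hx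
    have h1 : (fun j => fderiv ℝ (sm (φ j) u) x) = fun j =>
        ((φ j).normed volume ⋆[lsmul ℝ ℝ, volume] fun x : E n => fderiv ℝ u x) x := by
      funext j
      exact (sm_hasFDerivAt (φ j) hu x).fderiv
    rw [h1]
    exact hx
  refine step2.trans ?_
  refine (liminf_le_liminf (Eventually.of_forall fun j => step1 (φ j))).trans ?_
  rw [liminf_const]

end Pool.Agent.Helper69.RQ
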